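import Mathlib

/-!
# The `t`-dimension of divisibility on `(α n, n]` (MP_d046ed_co)
-/

namespace Pool.Agent.Q264.TD

/-- The positive integers in `(α n, n]` (ordered by divisibility). -/
def Div (α : ℝ) (n : ℕ) : Type := {m : ℕ // 0 < m ∧ α * n < m ∧ m ≤ n}

/-- `Div ((α n, n])` has an order embedding into `{1, …, t}^d` (written `Fin d → Fin t`, coordinatewise order): an
injective map `f` with `x ∣ y` iff `f x ≤ f y`. -/
def Embeds (α : ℝ) (n t d : ℕ) : Prop :=
  ∃ f : Div α n → (Fin d → Fin t), Function.Injective f ∧ ∀ x y : Div α n, x.1 ∣ y.1 ↔ f x ≤ f y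

/-- The `t`-dimension of `Div ((α n, n])`: the least `d ≥ 1` with an order embedding into `{1, …, t}^d`. -/
noncomputable def tdim (α : ℝ) (t n : ℕ) : ℕ := sInf {d : ℕ | 1 ≤ d ∧ Embeds α n t d}

end Pool.Agent.Q264.TD
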