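import Pool.Agent.Q264.TD.Upper

namespace Pool.Agent.Q264.TD

open Filter Topology

/-- counting: an embedding needs `(1 - α) n ≤ t ^ d` -/
lemma card_le {α : ℝ} {n t d : ℕ} (hα : 0 < α) (h : Embeds α n t d) :
    (1 - α) * n ≤ (t : ℝ) ^ d := by
  obtain ⟨f, hf, -⟩ := h
  have hn0 : 0 ≤ α * n := by positivity
  set a := ⌊α * n⌋₊ with ha
  have ha1 : (a : ℝ) ≤ α * n := Nat.floor_le hn0
  have ha2 : α * n < a + 1 := Nat.lt_floor_add_one _
  let g : Fin (n - a) → Div α n := fun i => ⟨a + 1 + i.val, by omega, by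
    push_cast
    have : (0 : ℝ) ≤ (i.val : ℝ) := by positivity
    linarith, by have := i.2; omega⟩
  have hg : Function.Injective g := by
    intro i j hij
    have : a + 1 + i.val = a + 1 + j.val := congrArg Subtype.val hij
    exact Fin.ext (by omega)
  have hc := Fintype.card_le_of_injective (fun i => f (g i)) (fun i j h => hg (hf h))
  rw [Fintype.card_fin, Fintype.card_fun, Fintype.card_fin, Fintype.card_fin] at hc
  have h1 : (n : ℝ) - a ≤ ((n - a : ℕ) : ℝ) := by
    rw [sub_le_iff_le_add]
    have : n ≤ (n - a) + a := by omega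
    exact_mod_cast this
  have h2 : ((n - a : ℕ) : ℝ) ≤ (t : ℝ) ^ d := by exact_mod_cast hc
  linarith

/-- the main asymptotic -/
theorem main (α : ℝ) (hα : 0 < α) (hα1 : α < 1) (t : ℕ) (ht : 2 ≤ t) :
    Tendsto (fun n : ℕ => (tdim α t n : ℝ) / ((1 / Real.log t) * Real.log n)) atTop (𝓝 1) := by
  set B := ⌈1 / α⌉₊ with hB
  have hB1 : 1 / α ≤ B := Nat.le_ceil _
  have htr : (2 : ℝ) ≤ t := by exact_mod_cast ht
  have hlt : 0 < Real.log t := Real.log_pos (by linarith)
  have hl2 : 0 < Real.log 2 := Real.log_pos (by norm_num)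
  let J : ℕ → ℕ := fun n => Nat.log 2 (Nat.log 2 n) + 1
  let D : ℕ → ℕ := fun n => Nat.log t n + 1
  let e : ℕ → ℕ := fun n => Nat.log t (D n * (t - 1)) + 1
  let U : ℕ → ℕ := fun n => D n + e n + (B + 1) * (B + 1) * J n * 2
  have hemb : ∀ n, Embeds α n t (U n) := fun n =>
    embeds (B := B) (K := B) (W := B + 1) (J := J n) (d := D n) (e := e n) hα hB1 Nat.lt_two_pow_self.le
      (Nat.lt_succ_self B) (Nat.lt_pow_succ_log_self (by norm_num) _) ht
      (Nat.lt_pow_succ_log_self (by omega) _) (Nat.lt_pow_succ_log_self (by omega) _)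
  have hne : ∀ n, U n ∈ {d : ℕ | 1 ≤ d ∧ Embeds α n t d} := fun n => ⟨by simp only [U, D]; omega, hemb n⟩
  have hup : ∀ n, tdim α t n ≤ U n := fun n => Nat.sInf_le (hne n)
  have hlow : ∀ n : ℕ, (1 - α) * n ≤ (t : ℝ) ^ (tdim α t n) := fun n =>
    card_le hα (Nat.sInf_mem (s := {d : ℕ | 1 ≤ d ∧ Embeds α n t d}) ⟨_, hne n⟩).2
  -- the logarithm tends to infinity
  have hl : Tendsto (fun n : ℕ => Real.log n) atTop atTop :=
    Real.tendsto_log_atTop.comp tendsto_natCast_atTop_atTop
  have hlll : Tendsto (fun n : ℕ => Real.log (Real.log n) / Real.log n) atTop (𝓝 0) := by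
    have h := Real.isLittleO_log_id_atTop.tendsto_div_nhds_zero
    exact h.comp hl
  have hinv : Tendsto (fun n : ℕ => 1 / Real.log n) atTop (𝓝 0) := by
    have := tendsto_inv_atTop_zero.comp hl
    refine this.congr fun n => by simp
  -- lower bound
  have hlowt : Tendsto (fun n : ℕ => 1 + Real.log (1 - α) * (1 / Real.log n)) atTop (𝓝 1) := by
    have := (hinv.const_mul (Real.log (1 - α))).const_add 1
    simpa using this
  -- upper bound
  set C1 : ℝ := (1 / Real.log t + 1) * t with hC1
  have hC1pos : 0 < C1 := by positivity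
  set A : ℝ := 1 / Real.log t + (B + 1) * (B + 1) * 2 * (1 / Real.log 2) with hA
  set E : ℝ := 1 + (Real.log C1 / Real.log t + 1) +
    (B + 1) * (B + 1) * 2 * (Real.log (1 / Real.log 2) / Real.log 2 + 1) with hE
  have hupt : Tendsto (fun n : ℕ => 1 + Real.log t * (A * (Real.log (Real.log n) / Real.log n) +
      E * (1 / Real.log n))) atTop (𝓝 1) := by
    have := ((hlll.const_mul A).add (hinv.const_mul E)).const_mul (Real.log t) |>.const_add 1
    simpa using this
  refine tendsto_of_tendsto_of_tendsto_of_le_of_le' hlowt hupt ?_ ?_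
  · filter_upwards [hl.eventually_ge_atTop 1] with n hn1
    have hnpos : (0 : ℝ) < n := by
      by_contra hcon
      have : (n : ℝ) = 0 := le_antisymm (not_lt.mp hcon) (by positivity)
      rw [this, Real.log_zero] at hn1; linarith
    have h1 := hlow n
    have h2 : Real.log ((1 - α) * n) ≤ tdim α t n * Real.log t := by
      have h3 := Real.log_le_log (mul_pos (by linarith) hnpos) h1
      rwa [Real.log_pow] at h3
    rw [Real.log_mul (by linarith) hnpos.ne'] at h2
    rw [le_div_iff₀ (by positivity)]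
    have hln : 0 < Real.log n := by linarith
    have : (1 + Real.log (1 - α) * (1 / Real.log n)) * (1 / Real.log t * Real.log n) =
        (Real.log (1 - α) + Real.log n) / Real.log t := by field_simp; ring
    rw [this, div_le_iff₀ hlt]
    exact h2
  · filter_upwards [hl.eventually_ge_atTop 1] with n hn1
    set ℓ : ℝ := Real.log n with hℓ
    have hℓ0 : 0 < ℓ := by linarith
    have hDn : (D n : ℝ) ≤ ℓ / Real.log t + 1 := by
      have := Real.natLog_le_logb n t
      simp only [D]; push_cast
      rw [Real.logb] at this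
      linarith
    have hDpos : (0:ℝ) < D n := by simp only [D]; positivity
    have hm : ((D n * (t - 1) : ℕ) : ℝ) ≤ C1 * ℓ := by
      have ht1 : ((t - 1 : ℕ) : ℝ) ≤ t := by exact_mod_cast Nat.sub_le _ _
      push_cast
      calc (D n : ℝ) * ((t - 1 : ℕ) : ℝ) ≤ (ℓ / Real.log t + 1) * t :=
            mul_le_mul hDn ht1 (by positivity) (by positivity)
        _ ≤ (ℓ / Real.log t + ℓ) * t := by
            apply mul_le_mul_of_nonneg_right _ (by positivity); linarith
        _ = C1 * ℓ := by rw [hC1]; ring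
    have hmpos : (0:ℝ) < ((D n * (t - 1) : ℕ) : ℝ) := by
      have : 0 < D n * (t - 1) := Nat.mul_pos (by simp [D]) (by omega)
      exact_mod_cast this
    have hen : (e n : ℝ) ≤ (Real.log C1 + Real.log ℓ) / Real.log t + 1 := by
      have h1 := Real.natLog_le_logb (D n * (t - 1)) t
      rw [Real.logb] at h1
      have h2 : Real.log ((D n * (t - 1) : ℕ) : ℝ) ≤ Real.log C1 + Real.log ℓ := by
        rw [← Real.log_mul hC1pos.ne' hℓ0.ne']
        exact Real.log_le_log hmpos hm
      have h3 : Real.log ((D n * (t - 1) : ℕ) : ℝ) / Real.log t ≤ (Real.log C1 + Real.log ℓ) / Real.log t :=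
        div_le_div_of_nonneg_right h2 hlt.le
      simp only [e]; push_cast at h1 h3 ⊢
      linarith
    have hJn : (J n : ℝ) ≤ (Real.log (1 / Real.log 2) + Real.log ℓ) / Real.log 2 + 1 := by
      have h1 := Real.natLog_le_logb (Nat.log 2 n) 2
      have h0 := Real.natLog_le_logb n 2
      rw [Real.logb] at h1 h0
      have hlog1 : 0 < Nat.log 2 n := by
        apply Nat.log_pos (by norm_num)
        by_contra hcon
        have h4 : n ≤ 1 := by omega
        have h5 : Real.log n ≤ 0 := Real.log_nonpos (by positivity) (by exact_mod_cast h4)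
        linarith
      have hlr : (0:ℝ) < (Nat.log 2 n : ℕ) := by exact_mod_cast hlog1
      have h2 : Real.log ((Nat.log 2 n : ℕ) : ℝ) ≤ Real.log (1 / Real.log 2) + Real.log ℓ := by
        rw [← Real.log_mul (by positivity) hℓ0.ne']
        apply Real.log_le_log hlr
        have h6 : (1 / Real.log 2) * ℓ = Real.log n / Real.log ((2:ℕ):ℝ) := by
          rw [← hℓ]; push_cast; ring
        rw [h6]; exact h0
      have h3 : Real.log ((Nat.log 2 n : ℕ) : ℝ) / Real.log ((2:ℕ):ℝ) ≤
          (Real.log (1 / Real.log 2) + Real.log ℓ) / Real.log 2 := by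
        push_cast
        exact div_le_div_of_nonneg_right h2 hl2.le
      simp only [J]; push_cast at h1 h3 ⊢
      linarith
    have hU : (tdim α t n : ℝ) ≤ ℓ / Real.log t + A * Real.log ℓ + E := by
      have h1 : (tdim α t n : ℝ) ≤ (U n : ℝ) := by exact_mod_cast hup n
      have h2 : (U n : ℝ) = D n + e n + (B + 1) * (B + 1) * J n * 2 := by
        simp only [U]; push_cast; ring
      have h3 : ((B:ℝ) + 1) * (B + 1) * J n * 2 ≤ ((B:ℝ) + 1) * (B + 1) * 2 *
          ((Real.log (1 / Real.log 2) + Real.log ℓ) / Real.log 2 + 1) := by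
        have : ((B:ℝ) + 1) * (B + 1) * J n * 2 = ((B:ℝ) + 1) * (B + 1) * 2 * J n := by ring
        rw [this]
        exact mul_le_mul_of_nonneg_left hJn (by positivity)
      have h4 : ℓ / Real.log t + A * Real.log ℓ + E = (ℓ / Real.log t + 1) +
          ((Real.log C1 + Real.log ℓ) / Real.log t + 1) + ((B:ℝ) + 1) * (B + 1) * 2 *
          ((Real.log (1 / Real.log 2) + Real.log ℓ) / Real.log 2 + 1) := by
        rw [hA, hE]; ring
      rw [h4]; linarith
    rw [div_le_iff₀ (by positivity)]
    have : (1 + Real.log t * (A * (Real.log ℓ / ℓ) + E * (1 / ℓ))) * (1 / Real.log t * ℓ) =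
        ℓ / Real.log t + A * Real.log ℓ + E := by field_simp; ring
    rw [this]
    exact hU

end Pool.Agent.Q264.TD
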