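import Pool.Agent.Q264.TD.Def

namespace Pool.Agent.Q264.TD

open Finset

/-- digits in base `t` -/
lemma exists_digits {t k x : ℕ} (hx : x < t ^ k) :
    ∃ f : Fin k → Fin t, ∑ i, (f i : ℕ) * t ^ (i : ℕ) = x := by
  refine ⟨finFunctionFinEquiv.symm ⟨x, hx⟩, ?_⟩
  have h := finFunctionFinEquiv_apply (finFunctionFinEquiv.symm (⟨x, hx⟩ : Fin (t ^ k)))
  rw [Equiv.apply_symm_apply] at h
  exact h.symm

/-- a balanced code: the digits of `x`, and the digits of `M` minus the digit sum -/
lemma exists_code {t d e n : ℕ} (ht : 0 < t) (hn : n < t ^ d) (he : d * (t - 1) < t ^ e) :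
    ∃ c : ℕ → (Fin d ⊕ Fin e → Fin t), ∀ x y : ℕ, x ≤ n → y ≤ n → c x ≤ c y → x = y := by
  classical
  have h1 : ∀ x : ℕ, ∃ f : Fin d → Fin t, x ≤ n → ∑ i, (f i : ℕ) * t ^ (i : ℕ) = x := by
    intro x
    by_cases hx : x ≤ n
    · obtain ⟨f, hf⟩ := exists_digits (lt_of_le_of_lt hx hn)
      exact ⟨f, fun _ => hf⟩
    · exact ⟨fun _ => ⟨0, ht⟩, fun h => absurd h hx⟩
  choose f hf using h1
  have hS : ∀ x : ℕ, ∑ i, (f x i : ℕ) ≤ d * (t - 1) := by
    intro x
    calc ∑ i, (f x i : ℕ) ≤ ∑ _i : Fin d, (t - 1) := Finset.sum_le_sum fun i _ => by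
          have := (f x i).2; omega
      _ = d * (t - 1) := by simp
  have h2 : ∀ x : ℕ, ∃ g : Fin e → Fin t, ∑ i, (g i : ℕ) * t ^ (i : ℕ) = d * (t - 1) - ∑ i, (f x i : ℕ) := by
    intro x
    exact exists_digits (lt_of_le_of_lt (Nat.sub_le _ _) he)
  choose g hg using h2
  refine ⟨fun x => Sum.elim (f x) (g x), fun x y hx hy hxy => ?_⟩
  have hfl : ∀ i, (f x i : ℕ) ≤ f y i := fun i => hxy (Sum.inl i)
  have hgl : ∀ i, (g x i : ℕ) ≤ g y i := fun i => hxy (Sum.inr i)
  have e1 : ∑ i, (f x i : ℕ) ≤ ∑ i, (f y i : ℕ) := Finset.sum_le_sum fun i _ => hfl i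
  have e2 : d * (t - 1) - ∑ i, (f x i : ℕ) ≤ d * (t - 1) - ∑ i, (f y i : ℕ) := by
    rw [← hg x, ← hg y]
    exact Finset.sum_le_sum fun i _ => Nat.mul_le_mul_right _ (hgl i)
  have e3 : ∑ i, (f x i : ℕ) = ∑ i, (f y i : ℕ) := by
    have := hS x; have := hS y; omega
  have e4 : ∀ i, (f x i : ℕ) = f y i := by
    have := (Finset.sum_eq_sum_iff_of_le (fun i _ => hfl i)).mp e3
    exact fun i => this i (Finset.mem_univ i)
  rw [← hf x hx, ← hf y hy]
  exact Finset.sum_congr rfl fun i _ => by rw [e4 i]

/-- the part of the factorization at the primes above `B` -/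
noncomputable def rough (B x : ℕ) : ℕ → ℕ := fun p => if B < p then x.factorization p else 0

/-- a small representative of the class of `x` -/
noncomputable def rep (B x : ℕ) : ℕ := sInf {m : ℕ | rough B m = rough B x}

lemma rep_le (B x : ℕ) : rep B x ≤ x := Nat.sInf_le rfl

lemma rough_rep (B x : ℕ) : rough B (rep B x) = rough B x :=
  Nat.sInf_mem (s := {m : ℕ | rough B m = rough B x}) ⟨x, rfl⟩

/-- a multiple in the interval has the same rough part -/
lemma rough_eq_of_dvd {α : ℝ} {n B : ℕ} (hα : 0 < α) (hB : 1 / α ≤ B) {x y : Div α n} (h : x.1 ∣ y.1) :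
    ∃ r : ℕ, y.1 = x.1 * r ∧ 0 < r ∧ r < B ∧ rough B x.1 = rough B y.1 := by
  obtain ⟨r, hr⟩ := h
  have hx := x.2.1
  have hy := y.2.1
  have hr0 : 0 < r := by
    rcases Nat.eq_zero_or_pos r with h0 | h0
    · rw [h0, mul_zero] at hr; omega
    · exact h0
  have hn : 0 < n := lt_of_lt_of_le hy y.2.2.2
  have hnr : (0 : ℝ) < n := by exact_mod_cast hn
  have hlt : r < B := by
    have h1 : α * n * r < n := by
      calc α * n * r < (x.1 : ℝ) * r := by
            apply mul_lt_mul_of_pos_right x.2.2.1; exact_mod_cast hr0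
        _ = (y.1 : ℝ) := by rw [hr]; push_cast; ring
        _ ≤ n := by exact_mod_cast y.2.2.2
    have h2 : α * r < 1 := by
      have : (α * r) * n < 1 * n := by linarith [h1, mul_right_comm α (n:ℝ) (r:ℝ)]
      exact lt_of_mul_lt_mul_right this hnr.le
    have h3 : (r : ℝ) < 1 / α := by rw [lt_div_iff₀ hα]; linarith
    have h4 : (r : ℝ) < B := lt_of_lt_of_le h3 hB
    exact_mod_cast h4
  refine ⟨r, hr, hr0, hlt, ?_⟩
  funext p
  simp only [rough]
  by_cases hp : B < p
  · rw [if_pos hp, if_pos hp, hr, Nat.factorization_mul hx.ne' hr0.ne']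
    have : r.factorization p = 0 := by
      apply Nat.factorization_eq_zero_of_lt
      omega
    simp [this]
  · rw [if_neg hp, if_neg hp]

/-- the up-set generated by the elements whose exponent of `p` is `≡ r mod W` and whose quotient has `j`-th bit `b` -/
def up (α : ℝ) (n W p r j : ℕ) (b : Bool) (x : Div α n) : Prop :=
  ∃ z : Div α n, z.1 ∣ x.1 ∧ z.1.factorization p % W = r ∧ (z.1.factorization p / W).testBit j = b

theorem embeds {α : ℝ} {n B K W J t d e : ℕ} (hα : 0 < α) (hB : 1 / α ≤ B) (hK : B ≤ 2 ^ K) (hW : K < W)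
    (hJ : Nat.log 2 n < 2 ^ J) (ht : 2 ≤ t) (hn : n < t ^ d) (he : d * (t - 1) < t ^ e) :
    Embeds α n t (d + e + (B + 1) * W * J * 2) := by
  classical
  obtain ⟨c, hc⟩ := exists_code (by omega : 0 < t) hn he
  let κ : Type := (Fin d ⊕ Fin e) ⊕ (((Fin (B + 1) × Fin W) × Fin J) × Bool)
  have hcard : Fintype.card κ = d + e + (B + 1) * W * J * 2 := by
    simp [κ]
  let eq : Fin (d + e + (B + 1) * W * J * 2) ≃ κ := (finCongr hcard.symm).trans (Fintype.equivFin κ).symm
  let F : Div α n → (κ → Fin t) := fun x => Sum.elim (c (rep B x.1)) (fun q =>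
    if up α n W q.1.1.1.val q.1.1.2.val q.1.2.val q.2 x then ⟨1, by omega⟩ else ⟨0, by omega⟩)
  have hW0 : 0 < W := by omega
  have key : ∀ x y : Div α n, x.1 ∣ y.1 ↔ F x ≤ F y := by
    intro x y
    constructor
    · intro hxy
      obtain ⟨r, hr, hr0, hrB, hrough⟩ := rough_eq_of_dvd hα hB hxy
      have hrep : rep B x.1 = rep B y.1 := by simp only [rep, hrough]
      intro k
      rcases k with k | q
      · simp only [F, Sum.elim_inl, hrep]; exact le_refl _
      · simp only [F, Sum.elim_inr]
        by_cases hu : up α n W q.1.1.1.val q.1.1.2.val q.1.2.val q.2 x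
        · have hu' : up α n W q.1.1.1.val q.1.1.2.val q.1.2.val q.2 y := by
            obtain ⟨z, hz, h2⟩ := hu
            exact ⟨z, hz.trans hxy, h2⟩
          rw [if_pos hu, if_pos hu']
        · rw [if_neg hu]
          exact Fin.mk_le_of_le_val (Nat.zero_le _)
    · intro hF
      have hrep : rep B x.1 = rep B y.1 := by
        apply hc
        · exact (rep_le _ _).trans x.2.2.2
        · exact (rep_le _ _).trans y.2.2.2
        · intro k
          exact hF (Sum.inl k)
      have hrough : rough B x.1 = rough B y.1 := by rw [← rough_rep, hrep, rough_rep]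
      by_contra hxy
      have hx := x.2.1
      have hy := y.2.1
      have hex : ∃ p, y.1.factorization p < x.1.factorization p := by
        by_contra hcon
        push Not at hcon
        exact hxy ((Nat.factorization_le_iff_dvd hx.ne' hy.ne').mp hcon)
      obtain ⟨p, hp⟩ := hex
      have hpB : p ≤ B := by
        by_contra hcon
        have h1 := congrFun hrough p
        simp only [rough, if_pos (not_le.mp hcon)] at h1
        omega
      set a := x.1.factorization p with ha
      have hpp : p.Prime := by
        by_contra hnp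
        have h1 : a = 0 := Nat.factorization_eq_zero_of_not_prime x.1 hnp
        omega
      have hup : ∀ j : ℕ, j < J → up α n W p (a % W) j ((a / W).testBit j) y := by
        intro j hj
        have h1 : up α n W p (a % W) j ((a / W).testBit j) x := ⟨x, dvd_refl _, rfl, rfl⟩
        have h2 := hF (Sum.inr (((⟨p, by omega⟩, ⟨a % W, Nat.mod_lt _ hW0⟩), ⟨j, hj⟩), (a / W).testBit j))
        simp only [F, Sum.elim_inr, if_pos h1] at h2
        by_contra hcon
        rw [if_neg hcon] at h2
        have := Fin.mk_le_mk.mp h2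
        omega
      -- exponents of the divisors of `y`
      have hz : ∀ z : Div α n, z.1 ∣ y.1 → z.1.factorization p ≤ y.1.factorization p ∧
          y.1.factorization p ≤ z.1.factorization p + K := by
        intro z hzy
        obtain ⟨r, hr, hr0, hrB, -⟩ := rough_eq_of_dvd hα hB hzy
        have hz0 := z.2.1
        rw [hr, Nat.factorization_mul hz0.ne' hr0.ne']
        have h3 : r.factorization p ≤ K := by
          by_contra hcon
          have h4 : p ^ (r.factorization p) ≤ r := Nat.le_of_dvd hr0 (Nat.ordProj_dvd r p)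
          have h5 : 2 ^ (K + 1) ≤ p ^ (r.factorization p) :=
            (Nat.pow_le_pow_left hpp.two_le _).trans (Nat.pow_le_pow_right hpp.pos (by omega))
          have h6 : 2 ^ (K + 1) = 2 * 2 ^ K := by ring
          have h7 : 0 < 2 ^ K := by positivity
          omega
        simp only [Finsupp.coe_add, Pi.add_apply]
        omega
      -- all witnesses have the same exponent
      have hJ0 : 0 < J := by
        rcases Nat.eq_zero_or_pos J with h0 | h0
        · rw [h0, pow_zero] at hJ
          -- then `log 2 n = 0`, so `n ≤ 1` and `a = 0`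
          have hlog : Nat.log 2 n = 0 := by omega
          have hxn := x.2.2.2
          have ha0 : a ≤ Nat.log 2 n := by
            have h4 : p ^ a ≤ x.1 := Nat.le_of_dvd hx (Nat.ordProj_dvd x.1 p)
            have h5 : 2 ^ a ≤ p ^ a := Nat.pow_le_pow_left hpp.two_le _
            exact Nat.le_log_of_pow_le (by norm_num) (by omega)
          omega
        · exact h0
      obtain ⟨z0, hz0d, hz0r, -⟩ := hup 0 hJ0
      set cc := z0.1.factorization p with hcc
      have hcz := hz z0 hz0d
      have hbits : ∀ j, j < J → (cc / W).testBit j = (a / W).testBit j := by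
        intro j hj
        obtain ⟨z, hzd, hzr, hzb⟩ := hup j hj
        have hzz := hz z hzd
        have : z.1.factorization p = cc := by
          have h1 : z.1.factorization p % W = cc % W := by rw [hzr, hz0r]
          have h2 : z.1.factorization p ≡ cc [MOD W] := h1
          rcases le_total (z.1.factorization p) cc with h3 | h3
          · have h4 := (Nat.modEq_iff_dvd' h3).mp h2
            obtain ⟨k, hk⟩ := h4
            rcases Nat.eq_zero_or_pos k with h5 | h5
            · rw [h5] at hk; omega
            · have : W ≤ W * k := Nat.le_mul_of_pos_right _ h5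
              omega
          · have h4 := (Nat.modEq_iff_dvd' h3).mp h2.symm
            obtain ⟨k, hk⟩ := h4
            rcases Nat.eq_zero_or_pos k with h5 | h5
            · rw [h5] at hk; omega
            · have : W ≤ W * k := Nat.le_mul_of_pos_right _ h5
              omega
        rw [← this]; exact hzb
      have hbound : ∀ u : Div α n, u.1.factorization p / W < 2 ^ J := by
        intro u
        have h4 : p ^ (u.1.factorization p) ≤ u.1 := Nat.le_of_dvd u.2.1 (Nat.ordProj_dvd u.1 p)
        have h5 : 2 ^ (u.1.factorization p) ≤ p ^ (u.1.factorization p) := Nat.pow_le_pow_left hpp.two_le _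
        have h6 : u.1.factorization p ≤ Nat.log 2 n :=
          Nat.le_log_of_pow_le (by norm_num) (h5.trans (h4.trans u.2.2.2))
        exact lt_of_le_of_lt ((Nat.div_le_self _ _).trans h6) hJ
      have hq : cc / W = a / W := by
        apply Nat.eq_of_testBit_eq
        intro j
        by_cases hj : j < J
        · exact hbits j hj
        · have hle : 2 ^ J ≤ 2 ^ j := Nat.pow_le_pow_right (by norm_num) (not_lt.mp hj)
          rw [Nat.testBit_lt_two_pow (lt_of_lt_of_le (hbound z0) hle),
            Nat.testBit_lt_two_pow (lt_of_lt_of_le (hbound x) hle)]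
      have hfin : cc = a := by
        rw [← Nat.div_add_mod cc W, ← Nat.div_add_mod a W, hq, hz0r]
      omega
  refine ⟨fun x i => F x (eq i), ?_, ?_⟩
  · intro x y hxy
    have hFF : F x = F y := by
      funext k
      have := congrFun hxy (eq.symm k)
      simpa using this
    have h1 := (key x y).mpr (le_of_eq hFF)
    have h2 := (key y x).mpr (le_of_eq hFF.symm)
    exact Subtype.ext (Nat.dvd_antisymm h1 h2)
  · intro x y
    rw [key]
    constructor
    · intro h i; exact h (eq i)
    · intro h k
      have := h (eq.symm k)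
      simpa using this

end Pool.Agent.Q264.TD
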